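import Pool.Agent.H183Z.Exist

set_option autoImplicit false

namespace Pool.Agent.Results.MP_f2f7de_al.FiniteRigid

open Pool.Agent.H183Z

/-- For every `N ≥ 2` there is a finite spectrally rigid set of geodesic currents on `F_N`.
The first part says that the intersection form with a tree of `cv_N` exists, so that the second
part is not vacuous. -/
theorem result (N : ℕ) (hN : 2 ≤ N) :
    (∀ (T : Type) [MetricSpace T] [MulAction (FreeGroup (Fin N)) T], InCV N T →
      ∃ I : Curr N → ℝ, IsIntersection N T I) ∧
    ∃ S : Set (Curr N), S.Finite ∧ SpectrallyRigid N S :=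
  ⟨fun _ _ _ H => exists_intersection H, exists_rigid hN⟩

end Pool.Agent.Results.MP_f2f7de_al.FiniteRigid
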